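import Pool.Agent.Q71.DN.Defs

/-!
# Project DN, job DN-8: a cell with few dependent rows
-/

set_option autoImplicit false

namespace Pool.Agent.Q241.DN

open Finset Submodule
open Pool.Agent.Q71.DN

variable {F : Type} [Field F]

/-- A finite independent family of functionals takes all values. -/
theorem surj_of_indep {V : Type} [AddCommGroup V] [Module F V] {ι : Type} [Finite ι] (L : ι → (V →ₗ[F] F))
    (h : LinearIndependent F L) : Function.Surjective (LinearMap.pi L) := by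
  classical
  cases nonempty_fintype ι
  rw [← LinearMap.range_eq_top]
  by_contra hne
  obtain ⟨g, g0, hg⟩ := Submodule.exists_le_ker_of_lt_top _ (lt_top_iff_ne_top.2 hne)
  apply g0
  have h1 : ∑ i, g (Pi.single i 1) • L i = 0 := by
    ext v
    have h2 : g (LinearMap.pi L v) = 0 := hg ⟨v, rfl⟩
    rw [LinearMap.zero_apply, LinearMap.sum_apply, ← h2]
    have h3 : LinearMap.pi L v = ∑ i, L i v • (Pi.single i (1 : F) : ι → F) := by
      funext j
      rw [Finset.sum_apply]
      simp [Pi.single_apply]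
    rw [h3, map_sum]
    refine Finset.sum_congr rfl (fun i _ => ?_)
    rw [LinearMap.smul_apply, map_smul, smul_eq_mul, smul_eq_mul, mul_comm]
  have h4 := Fintype.linearIndependent_iff.1 h _ h1
  refine LinearMap.pi_ext' (fun i => LinearMap.ext_ring ?_)
  simpa using h4 i

theorem surj_of_indep' {V : Type} [AddCommGroup V] [Module F V] {ι : Type} [Finite ι] (L : ι → (V →ₗ[F] F))
    (h : LinearIndependent F L) (c : ι → F) : ∃ v : V, ∀ i, L i v = c i := by
  obtain ⟨v, hv⟩ := surj_of_indep L h c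
  exact ⟨v, fun i => congrFun hv i⟩

theorem mem_span_inter {W ι : Type} [AddCommGroup W] [Module F W] {v : ι → W} {I s t : Set ι}
    (h : LinearIndepOn F v I) (hs : s ⊆ I) (ht : t ⊆ I) {x : W} (h1 : x ∈ span F (v '' s))
    (h2 : x ∈ span F (v '' t)) : x ∈ span F (v '' (s ∩ t)) := by
  have h3 : s = (s ∩ t) ∪ (s \ t) := (Set.inter_union_diff s t).symm
  rw [h3, Set.image_union, Submodule.span_union, Submodule.mem_sup] at h1
  obtain ⟨y, hy, z, hz, hyz⟩ := h1
  have h4 : z ∈ span F (v '' t) := by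
    have h5 : y ∈ span F (v '' t) := Submodule.span_mono (Set.image_mono Set.inter_subset_right) hy
    have h6 : z = x - y := by rw [← hyz]; abel
    rw [h6]
    exact Submodule.sub_mem _ h2 h5
  have h5 : Disjoint (s \ t) t := Set.disjoint_sdiff_left
  have h6 := ((linearIndepOn_union_iff h5).1
    (h.mono (Set.union_subset (Set.diff_subset.trans hs) ht))).2.2
  have h7 : z = 0 := Submodule.disjoint_def.1 h6 z hz h4
  rw [← hyz, h7, add_zero]
  exact hy

theorem disj {W ι : Type} [AddCommGroup W] [Module F W] {v : ι → W} {I s t : Set ι}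
    (h : LinearIndepOn F v I) (hs : s ⊆ I) (ht : t ⊆ I) (hst : Disjoint s t) {x : W} (h1 : x ∈ span F (v '' s))
    (h2 : x ∈ span F (v '' t)) : x = 0 :=
  Submodule.disjoint_def.1 ((linearIndepOn_union_iff hst).1 (h.mono (Set.union_subset hs ht))).2.2 x h1 h2

variable {m D : ℕ}

/-- The rows as one family. -/
def vv (φ : Rows F m D) (x : Fin (D + 2) × ℕ) : (Fin m → F) →ₗ[F] F := φ x.1 x.2

theorem net_on {t : ℕ} {φ : Rows F m D} (h : IsNet t φ) (a : Fin (D + 2) → ℕ) (ha : (∑ j, a j) + t ≤ m) :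
    LinearIndepOn F (vv φ) {x | x.2 < a x.1} := by
  have h1 := h a ha
  have h2 := h1.comp (fun x : {x : Fin (D + 2) × ℕ | x.2 < a x.1} => (⟨x.1.1, ⟨x.1.2, x.2⟩⟩ : Σ j, Fin (a j)))
    (by
      rintro ⟨⟨j, i⟩, hx⟩ ⟨⟨j', i'⟩, hx'⟩ hxx
      simp only [Sigma.mk.injEq] at hxx
      obtain ⟨h3, h4⟩ := hxx
      subst h3
      simp only [heq_eq_eq, Fin.mk.injEq] at h4
      subst h4
      rfl)
  exact h2

/-- The window in coordinate `0`. -/
def winX (D l1 w : ℕ) : Set (Fin (D + 2) × ℕ) := {x | x.1 = 0 ∧ l1 ≤ x.2 ∧ x.2 < l1 + w}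

/-- The windows of the cell `s`. -/
def blk (D S w b s : ℕ) : Set (Fin (D + 2) × ℕ) :=
  {x | ∃ j : Fin (D + 1), x.1 = j.succ ∧ lcell S w b s j ≤ x.2 ∧ x.2 < lcell S w b s j + w}

/-- The common part of the windows. -/
def Cb (D w : ℕ) : Set (Fin (D + 2) × ℕ) := {x | ∃ j : Fin (D + 1), 2 ≤ (j : ℕ) ∧ x.1 = j.succ ∧ x.2 < w}

/-- The levels of the first net. -/
def a1 (D S w b : ℕ) : Fin (D + 2) → ℕ :=
  Fin.cons (α := fun _ => ℕ) 0 (fun j : Fin (D + 1) => if (j : ℕ) = 0 then b + S * w else if (j : ℕ) = 1 then S * w else w)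

/-- The levels of the second net. -/
def a2 (D w l1 : ℕ) : Fin (D + 2) → ℕ :=
  Fin.cons (α := fun _ => ℕ) (l1 + w) (fun j : Fin (D + 1) => if (j : ℕ) < 2 then 0 else w)

theorem sum_a1 {D : ℕ} (hD : 1 ≤ D) (S w b : ℕ) : ∑ j, a1 D S w b j = b + 2 * (S * w) + (D - 1) * w := by
  obtain ⟨D', rfl⟩ : ∃ D', D = D' + 1 := ⟨D - 1, by omega⟩
  unfold a1
  rw [Fin.sum_cons, Fin.sum_univ_succ, Fin.sum_univ_succ]
  simp
  ring

theorem sum_a2 {D : ℕ} (hD : 1 ≤ D) (w l1 : ℕ) : ∑ j, a2 D w l1 j = l1 + D * w := by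
  obtain ⟨D', rfl⟩ : ∃ D', D = D' + 1 := ⟨D - 1, by omega⟩
  unfold a2
  rw [Fin.sum_cons, Fin.sum_univ_succ, Fin.sum_univ_succ]
  simp
  ring

theorem blk_sub {S w b s : ℕ} (hs : s < S) : blk D S w b s ⊆ {x | x.2 < a1 D S w b x.1} := by
  rintro ⟨j0, i⟩ ⟨j, h1, h2, h3⟩
  simp only at h1 h2 h3
  subst h1
  simp only [Set.mem_ofPred_eq, a1, Fin.cons_succ]
  unfold lcell at h2 h3
  split_ifs at h2 h3 ⊢ with h4 h5
  · have h6 : (s + 1) * w ≤ S * w := Nat.mul_le_mul_right w hs
    nlinarith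
  · have h6 : (S - 1 - s + 1) * w ≤ S * w := Nat.mul_le_mul_right w (by omega)
    nlinarith
  · omega

theorem mul_window {w i s s' c : ℕ} (h1 : c + s * w ≤ i) (h2 : i < c + s * w + w) (h3 : c + s' * w ≤ i)
    (h4 : i < c + s' * w + w) : s = s' := by
  have h5 : s * w < (s' + 1) * w := by nlinarith
  have h6 : s' * w < (s + 1) * w := by nlinarith
  have h7 := Nat.lt_of_mul_lt_mul_right h5
  have h8 := Nat.lt_of_mul_lt_mul_right h6
  omega

theorem blk_inter {S w b s s' : ℕ} (hs : s < S) (hs' : s' < S) (hne : s ≠ s') :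
    blk D S w b s ∩ blk D S w b s' ⊆ Cb D w := by
  rintro ⟨j0, i⟩ ⟨⟨j, h1, h2, h3⟩, ⟨j', h1', h2', h3'⟩⟩
  simp only at h1 h2 h3 h1' h2' h3'
  subst h1
  have h4 : j = j' := Fin.succ_injective _ h1'
  subst h4
  unfold lcell at h2 h3 h2' h3'
  by_cases h5 : (j : ℕ) = 0
  · rw [if_pos h5] at h2 h3 h2' h3'
    exact absurd (mul_window h2 h3 h2' h3') hne
  · rw [if_neg h5] at h2 h3 h2' h3'
    by_cases h6 : (j : ℕ) = 1
    · rw [if_pos h6] at h2 h3 h2' h3'
      have h7 := mul_window (w := w) (i := i) (s := S - 1 - s) (s' := S - 1 - s') (c := 0) (by simpa using h2)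
        (by simpa using h3) (by simpa using h2') (by simpa using h3')
      omega
    · rw [if_neg h6] at h2 h3 h2' h3'
      exact ⟨j, by omega, rfl, by simpa using h3⟩

theorem blk_inter_iUnion {S w b : ℕ} (s : Fin S) :
    blk D S w b s ∩ (⋃ s' ∈ (Finset.univ.erase s : Finset (Fin S)), blk D S w b s') ⊆ Cb D w := by
  rintro x ⟨h1, h2⟩
  rw [Set.mem_iUnion₂] at h2
  obtain ⟨s', h3, h4⟩ := h2
  rw [Finset.mem_erase] at h3
  exact blk_inter s.2 s'.2 (fun h => h3.1 (Fin.ext h.symm)) ⟨h1, h4⟩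

theorem winX_sub (D l1 w : ℕ) : winX D l1 w ⊆ {x | x.2 < a2 D w l1 x.1} := by
  rintro ⟨j0, i⟩ ⟨h1, h2, h3⟩
  simp only at h1 h2 h3
  subst h1
  simpa [a2] using h3

theorem Cb_sub (D l1 w : ℕ) : Cb D w ⊆ {x | x.2 < a2 D w l1 x.1} := by
  rintro ⟨j0, i⟩ ⟨j, h0, h1, h2⟩
  simp only at h1 h2
  subst h1
  simp only [Set.mem_ofPred_eq, a2, Fin.cons_succ]
  rw [if_neg (by omega)]
  exact h2

theorem winX_disj (D l1 w : ℕ) : Disjoint (winX D l1 w) (Cb D w) := by
  rw [Set.disjoint_left]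
  rintro ⟨j0, i⟩ ⟨h1, _, _⟩ ⟨j, _, h2, _⟩
  simp only at h1 h2
  rw [h1] at h2
  exact Fin.succ_ne_zero j h2.symm

/-- The intersections are independent. -/
theorem indep_inter {t : ℕ} {φ : Rows F m D} (hD : 1 ≤ D) (h : IsNet t φ) {S w b l1 : ℕ}
    (h1 : b + 2 * (S * w) + (D - 1) * w + t ≤ m) (h2 : l1 + D * w + t ≤ m) (x : Fin S → ((Fin m → F) →ₗ[F] F))
    (hx : ∀ s, x s ∈ span F (vv φ '' winX D l1 w) ∧ x s ∈ span F (vv φ '' blk D S w b s)) (h0 : ∑ s, x s = 0)
    (s : Fin S) : x s = 0 := by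
  classical
  have n1 := net_on h (a1 D S w b) (by rw [sum_a1 hD]; exact h1)
  have n2 := net_on h (a2 D w l1) (by rw [sum_a2 hD]; exact h2)
  have h3 : x s = -∑ s' ∈ Finset.univ.erase s, x s' := by
    have h4 := Finset.add_sum_erase Finset.univ x (Finset.mem_univ s)
    rw [h0] at h4
    exact eq_neg_of_add_eq_zero_left h4
  have h4 : x s ∈ span F (vv φ '' (⋃ s' ∈ (Finset.univ.erase s : Finset (Fin S)), blk D S w b s')) := by
    rw [h3]
    refine Submodule.neg_mem _ (Submodule.sum_mem _ (fun s' hs' => ?_))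
    refine Submodule.span_mono (Set.image_mono ?_) (hx s').2
    exact Set.subset_biUnion_of_mem (u := fun s' : Fin S => blk D S w b s') hs'
  have h5 := mem_span_inter n1 (blk_sub s.2) (Set.iUnion₂_subset (fun s' _ => blk_sub s'.2)) (hx s).2 h4
  have h6 : x s ∈ span F (vv φ '' Cb D w) := Submodule.span_mono (Set.image_mono (blk_inter_iUnion s)) h5
  exact disj n2 (winX_sub D l1 w) (Cb_sub D l1 w) (winX_disj D l1 w) (hx s).1 h6

theorem span_winX (φ : Rows F m D) (l1 w : ℕ) :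
    span F (vv φ '' winX D l1 w) = span F (Set.range (fun i : Fin w => φ 0 (l1 + i))) := by
  congr 1
  ext f
  constructor
  · rintro ⟨⟨j, i⟩, ⟨h1, h2, h3⟩, rfl⟩
    simp only at h1 h2 h3
    subst h1
    refine ⟨⟨i - l1, by omega⟩, ?_⟩
    simp only [vv]
    congr 1
    omega
  · rintro ⟨i, rfl⟩
    exact ⟨(0, l1 + i), ⟨rfl, by simp, by simp⟩, rfl⟩

theorem finrank_winX {t : ℕ} {φ : Rows F m D} (hD : 1 ≤ D) (h : IsNet t φ) {w l1 : ℕ}
    (h2 : l1 + D * w + t ≤ m) : Module.finrank F (span F (vv φ '' winX D l1 w)) = w := by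
  have n2 := net_on h (a2 D w l1) (by rw [sum_a2 hD]; exact h2)
  rw [span_winX]
  have h3 : LinearIndependent F (fun i : Fin w => φ 0 (l1 + i)) := by
    have h4 := n2.mono (winX_sub D l1 w)
    exact LinearIndependent.comp h4 (fun i : Fin w => (⟨(0, l1 + i), ⟨rfl, by simp, by simp⟩⟩ : winX D l1 w))
      (by
        intro i i' hii
        simp only [Subtype.mk.injEq, Prod.mk.injEq, true_and] at hii
        exact Fin.ext (by omega))
  rw [finrank_span_eq_card h3, Fintype.card_fin]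

theorem fr_le {W : Type} [AddCommGroup W] [Module F W] (g : ℕ → W) (I : Finset ℕ) :
    Module.finrank F (span F (g '' (I : Set ℕ))) ≤ I.card := by
  classical
  rw [← Finset.coe_image]
  exact (finrank_span_finset_le_card _).trans Finset.card_image_le

/-- Independent intersections. -/
theorem sum_finrank_abs {W : Type} [AddCommGroup W] [Module F W] [Module.Finite F W] {S : ℕ} (X : Submodule F W)
    (U : Fin S → Submodule F W)
    (h : ∀ x : Fin S → W, (∀ s, x s ∈ X ∧ x s ∈ U s) → ∑ s, x s = 0 → ∀ s, x s = 0) :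
    ∑ s : Fin S, Module.finrank F (X ⊓ U s : Submodule F W) ≤ Module.finrank F X := by
  classical
  rw [← Module.finrank_pi_fintype]
  let f : (Π s : Fin S, (X ⊓ U s : Submodule F W)) →ₗ[F] X :=
    ∑ s : Fin S, (Submodule.inclusion inf_le_left).comp (LinearMap.proj s)
  have hf : Function.Injective f := by
    rw [← LinearMap.ker_eq_bot, LinearMap.ker_eq_bot']
    intro x hx
    have h3 : ∑ s, ((x s : W)) = 0 := by
      have h4 : ((f x : X) : W) = 0 := by
        rw [hx]
        rfl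
      rw [← h4]
      simp [f, LinearMap.sum_apply]
    funext s
    apply Subtype.ext
    exact h (fun s => (x s : W)) (fun s => Submodule.mem_inf.1 (x s).2) h3 s
  exact LinearMap.finrank_le_finrank_of_injective hf

theorem sum_finrank {t : ℕ} {φ : Rows F m D} (hD : 1 ≤ D) (h : IsNet t φ) {S w b l1 : ℕ}
    (h1 : b + 2 * (S * w) + (D - 1) * w + t ≤ m) (h2 : l1 + D * w + t ≤ m) :
    ∑ s : Fin S, Module.finrank F (span F (vv φ '' winX D l1 w) ⊓ span F (vv φ '' blk D S w b s) : Submodule F _) ≤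
      w := by
  refine le_trans ?_ (le_of_eq (finrank_winX hD h h2))
  exact sum_finrank_abs (span F (vv φ '' winX D l1 w)) (fun s : Fin S => span F (vv φ '' blk D S w b s))
    (fun x hx h0 s => indep_inter hD h h1 h2 x hx h0 s)

/-- For one cell: the number of dependent rows is at most the dimension of the intersection. -/
theorem one_cell {t : ℕ} {φ : Rows F m D} (hD : 1 ≤ D) (h : IsNet t φ) {S w b l1 s : ℕ} (hs : s < S)
    (h1 : b + 2 * (S * w) + (D - 1) * w + t ≤ m) (h2 : l1 + D * w + t ≤ m) :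
    ∃ I ⊆ Ico l1 (l1 + w), w - I.card ≤
      Module.finrank F (span F (vv φ '' winX D l1 w) ⊓ span F (vv φ '' blk D S w b s) : Submodule F _) ∧
      ∀ c : Fin (D + 2) → ℕ → F, ∃ v : Fin m → F, (∀ i ∈ I, φ 0 i v = c 0 i) ∧
          ∀ (j : Fin (D + 1)) (i : ℕ), lcell S w b s j ≤ i → i < lcell S w b s j + w →
            φ j.succ i v = c j.succ i := by
  classical
  have n1 := net_on h (a1 D S w b) (by rw [sum_a1 hD]; exact h1)
  obtain ⟨B, hB1, hB2, hB3, hB4⟩ := exists_linearIndepOn_extension (n1.mono (blk_sub hs))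
    (Set.subset_union_left : blk D S w b s ⊆ blk D S w b s ∪ winX D l1 w)
  refine ⟨(Ico l1 (l1 + w)).filter (fun i => ((0 : Fin (D + 2)), i) ∈ B), Finset.filter_subset _ _, ?_, ?_⟩
  · obtain ⟨I, hI⟩ : ∃ I, I = (Ico l1 (l1 + w)).filter (fun i => ((0 : Fin (D + 2)), i) ∈ B) := ⟨_, rfl⟩
    rw [← hI]
    have h3 : span F (vv φ '' winX D l1 w) ⊔ span F (vv φ '' blk D S w b s) ≤
        span F (vv φ '' blk D S w b s) ⊔ span F ((fun i => φ 0 i) '' (I : Set ℕ)) := by
      have h4 : span F (vv φ '' B) ≤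
          span F (vv φ '' blk D S w b s) ⊔ span F ((fun i => φ 0 i) '' (I : Set ℕ)) := by
        rw [← Submodule.span_union, Submodule.span_le]
        rintro _ ⟨x, hx, rfl⟩
        apply Submodule.subset_span
        rcases hB1 hx with h5 | h5
        · exact Or.inl ⟨x, h5, rfl⟩
        · right
          obtain ⟨h6, h7, h8⟩ := h5
          refine ⟨x.2, ?_, ?_⟩
          · rw [Finset.mem_coe, hI, Finset.mem_filter, Finset.mem_Ico]
            refine ⟨⟨h7, h8⟩, ?_⟩
            rw [← h6]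
            exact hx
          · simp only [vv, h6]
      refine le_trans ?_ h4
      rw [← Submodule.span_union, ← Set.image_union, Submodule.span_le, Set.union_comm]
      exact hB3
    have h4 := Submodule.finrank_mono h3
    have h5 := Submodule.finrank_add_le_finrank_add_finrank (span F (vv φ '' blk D S w b s))
      (span F ((fun i => φ 0 i) '' (I : Set ℕ)))
    have h6 : Module.finrank F (span F ((fun i => φ 0 i) '' (I : Set ℕ))) ≤ I.card := fr_le _ I
    have h7 := Submodule.finrank_sup_add_finrank_inf_eq (span F (vv φ '' winX D l1 w)) (span F (vv φ '' blk D S w b s))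
    rw [finrank_winX hD h h2] at h7
    omega
  · intro c
    have hfin : Finite B := LinearIndependent.finite hB4
    obtain ⟨v, hv⟩ := surj_of_indep' _ hB4 (fun x => c x.1.1 x.1.2)
    refine ⟨v, fun i hi => ?_, fun j i hi1 hi2 => ?_⟩
    · rw [Finset.mem_filter] at hi
      have h5 := hv ⟨(0, i), hi.2⟩
      exact h5
    · have h5 := hv ⟨(j.succ, i), hB2 ⟨j, rfl, hi1, hi2⟩⟩
      exact h5

/-- **Job DN-8.** -/
theorem t_Cell : StmCell := by
  classical
  intro F _ _ m D t φ hD h S w b l1 hS h1 h2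
  by_contra hcon
  push Not at hcon
  have h3 : ∀ s : Fin S, w < S * Module.finrank F
      (span F (vv φ '' winX D l1 w) ⊓ span F (vv φ '' blk D S w b s) : Submodule F _) := by
    intro s
    obtain ⟨I, hI1, hI2, hI3⟩ := one_cell hD h s.2 h1 h2
    by_contra h4
    push Not at h4
    obtain ⟨c, hc⟩ := hcon s s.2 I hI1 ((Nat.mul_le_mul_left S hI2).trans h4)
    obtain ⟨v, hv1, hv2⟩ := hI3 c
    obtain ⟨j, i, h5, h6, h7⟩ := hc v hv1
    exact h7 (hv2 j i h5 h6)
  have h4 := sum_finrank hD h h1 h2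
  have h5 : ∑ s : Fin S, w < ∑ s : Fin S, S * Module.finrank F
      (span F (vv φ '' winX D l1 w) ⊓ span F (vv φ '' blk D S w b s) : Submodule F _) := by
    apply Finset.sum_lt_sum_of_nonempty
    · exact ⟨⟨0, by omega⟩, Finset.mem_univ _⟩
    · intro s _
      exact h3 s
  rw [Finset.sum_const, Finset.card_univ, Fintype.card_fin, smul_eq_mul, ← Finset.mul_sum] at h5
  have h6 := Nat.mul_le_mul_left S h4
  omega

end Pool.Agent.Q241.DN
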